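import Pool.Agent.Helper13.NF.Defs

set_option autoImplicit false

open Finset

namespace Pool.Agent.Helper13.NF

/-! M6 -/
theorem peel (P : Finset ℕ) (hP : ∀ q ∈ P, q.Prime ∧ q ≠ 2) (hc : 2 ≤ P.card) (m : ℕ)
    (hm : 0 < m) (n : ℕ → ℕ)
    (h : ∀ S ⊆ P, m * ((∏ q ∈ S, q) - 1) ≤ 2 * ∑ q ∈ S, n q)
    (heq : 2 * ∑ q ∈ P, n q = m * ((∏ q ∈ P, q) - 1)) :
    ∃ p1 ∈ P, ∃ p2 ∈ P, ∃ α e : ℕ, p1 ≠ p2 ∧ p1 = 2 * α + 1 ∧ n p1 = m * α + e ∧
      (∀ S ⊆ P.erase p1, p1 * (m * ((∏ q ∈ S, q) - 1)) ≤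
        2 * ∑ q ∈ S, (Function.update n p2 (n p2 + e)) q) ∧
      (2 * ∑ q ∈ P.erase p1, (Function.update n p2 (n p2 + e)) q
        = p1 * (m * ((∏ q ∈ P.erase p1, q) - 1))) ∧
      (∀ x, p1 * x ≤ n p2 + e + 2 * p1 → x ≤ n p2) := by
  have hne : P.Nonempty := card_pos.1 (by omega)
  obtain ⟨p1, hp1, hmin1⟩ := exists_min_image P n hne
  have hne2 : (P.erase p1).Nonempty := by
    apply card_pos.1
    rw [card_erase_of_mem hp1]
    omega
  obtain ⟨p2, hp2', hmin2⟩ := exists_min_image (P.erase p1) n hne2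
  have hp2 : p2 ∈ P := (mem_erase.1 hp2').2
  have h12 : p1 ≠ p2 := fun h => (mem_erase.1 hp2').1 h.symm
  have odd1 : ∀ q ∈ P, q % 2 = 1 ∧ 3 ≤ q := by
    intro q hq
    obtain ⟨hq1, hq2⟩ := hP q hq
    have := hq1.two_le
    refine ⟨(hq1.eq_two_or_odd).resolve_left hq2, ?_⟩
    omega
  obtain ⟨ho1, h31⟩ := odd1 p1 hp1
  obtain ⟨ho2, h32⟩ := odd1 p2 hp2
  obtain ⟨α, hα⟩ : ∃ α, p1 = 2 * α + 1 := ⟨p1 / 2, by omega⟩
  have hs := h {p1} (singleton_subset_iff.2 hp1)
  simp only [prod_singleton, sum_singleton] at hs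
  have hs' : m * α ≤ n p1 := by
    have e1 : p1 - 1 = 2 * α := by omega
    rw [e1] at hs
    have : m * (2 * α) = 2 * (m * α) := by ring
    omega
  obtain ⟨e, he⟩ := Nat.exists_eq_add_of_le hs'
  have hpos : ∀ S ⊆ P, 1 ≤ ∏ q ∈ S, q := by
    intro S hS
    apply Nat.one_le_iff_ne_zero.2
    apply prod_ne_zero_iff.2
    intro q hq
    have := (odd1 q (hS hq)).2
    omega
  -- the sum with the modified value
  have sum_mem : ∀ S : Finset ℕ, p2 ∈ S →
      ∑ q ∈ S, (Function.update n p2 (n p2 + e)) q = ∑ q ∈ S, n q + e := by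
    intro S hS
    rw [← add_sum_erase S _ hS, ← add_sum_erase S n hS, Function.update_self]
    have : ∑ x ∈ S.erase p2, Function.update n p2 (n p2 + e) x = ∑ x ∈ S.erase p2, n x := by
      apply sum_congr rfl
      intro x hx
      rw [Function.update_of_ne (mem_erase.1 hx).1]
    rw [this]
    ring
  have sum_notMem : ∀ S : Finset ℕ, p2 ∉ S →
      ∑ q ∈ S, (Function.update n p2 (n p2 + e)) q = ∑ q ∈ S, n q := by
    intro S hS
    apply sum_congr rfl
    intro x hx
    rw [Function.update_of_ne]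
    rintro rfl
    exact hS hx
  -- arithmetic with the products
  have arith : ∀ A : ℕ, 1 ≤ A → m * (p1 * A - 1) = p1 * (m * (A - 1)) + 2 * (m * α) := by
    intro A hA
    obtain ⟨B, rfl⟩ := Nat.exists_eq_add_of_le hA
    have e1 : p1 * (1 + B) - 1 = p1 * B + 2 * α := by
      rw [mul_add, mul_one]
      omega
    rw [e1, Nat.add_sub_cancel_left]
    ring
  refine ⟨p1, hp1, p2, hp2, α, e, h12, hα, he, ?_, ?_, ?_⟩
  · intro S hS
    have hSP : S ⊆ P := hS.trans (erase_subset _ _)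
    have h1S : p1 ∉ S := fun hh => (mem_erase.1 (hS hh)).1 rfl
    have hA := hpos S hSP
    by_cases h2S : p2 ∈ S
    · rw [sum_mem S h2S]
      have hh := h (insert p1 S) (insert_subset hp1 hSP)
      rw [prod_insert h1S, sum_insert h1S, arith _ hA, he] at hh
      omega
    · rw [sum_notMem S h2S]
      rcases S.eq_empty_or_nonempty with rfl | ⟨q, hq⟩
      · simp
      · have hqP := hS hq
        have hq2 := hmin2 q hqP
        have hq1 := hmin1 q (hSP hq)
        have hsum : n q ≤ ∑ q ∈ S, n q := single_le_sum (fun _ _ => Nat.zero_le _) hq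
        have h2i : p2 ∉ S := h2S
        have h1i : p1 ∉ insert p2 S := by
          rw [mem_insert]
          rintro (hh | hh)
          · exact h12 hh
          · exact h1S hh
        have hh := h (insert p1 (insert p2 S)) (insert_subset hp1 (insert_subset hp2 hSP))
        rw [prod_insert h1i, sum_insert h1i, prod_insert h2i, sum_insert h2i] at hh
        have k1 : 3 * (p1 * (m * ((∏ q ∈ S, q) - 1))) ≤ m * (p1 * (p2 * ∏ q ∈ S, q) - 1) := by
          obtain ⟨B, hB⟩ := Nat.exists_eq_add_of_le hA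
          rw [hB, Nat.add_sub_cancel_left]
          have : 3 * (p1 * B) ≤ p1 * (p2 * (1 + B)) - 1 := by
            have e3 : p1 * (3 * (1 + B)) ≤ p1 * (p2 * (1 + B)) :=
              Nat.mul_le_mul_left _ (Nat.mul_le_mul_right _ h32)
            have e4 : p1 * (3 * (1 + B)) = 3 * p1 + 3 * (p1 * B) := by ring
            omega
          calc 3 * (p1 * (m * B)) = m * (3 * (p1 * B)) := by ring
            _ ≤ _ := Nat.mul_le_mul_left _ this
        omega
  · have h2S : p2 ∈ P.erase p1 := hp2'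
    rw [sum_mem _ h2S]
    have hA := hpos (P.erase p1) (erase_subset _ _)
    have e1 : ∑ q ∈ P, n q = n p1 + ∑ q ∈ P.erase p1, n q := (add_sum_erase P n hp1).symm
    have e2 : ∏ q ∈ P, q = p1 * ∏ q ∈ P.erase p1, q := (mul_prod_erase P (fun q => q) hp1).symm
    rw [e1, e2, arith _ hA, he] at heq
    omega
  · intro x hx
    by_contra hcon
    push Not at hcon
    have hx1 : p1 * (n p2 + 1) ≤ n p2 + e + 2 * p1 :=
      (Nat.mul_le_mul_left _ hcon).trans hx
    have hle : n p1 ≤ n p2 := hmin1 p2 hp2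
    have hpair := h {p1, p2} (insert_subset hp1 (singleton_subset_iff.2 hp2))
    rw [prod_pair h12, sum_pair h12] at hpair
    have h15 : 15 ≤ p1 * p2 := by
      rcases lt_or_gt_of_ne h12 with hlt | hlt
      · have : 5 ≤ p2 := by omega
        exact Nat.mul_le_mul h31 this
      · have : 5 ≤ p1 := by omega
        exact Nat.mul_le_mul this h32
    have h14 : 14 ≤ m * (p1 * p2 - 1) := by
      calc 14 ≤ p1 * p2 - 1 := by omega
        _ = 1 * (p1 * p2 - 1) := (one_mul _).symm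
        _ ≤ _ := Nat.mul_le_mul_right _ hm
    have h4 : 4 ≤ n p2 := by omega
    obtain ⟨c, hc4⟩ := Nat.exists_eq_add_of_le h31
    rw [hc4] at hx1
    have e5 : (3 + c) * (n p2 + 1) = 3 * n p2 + c * n p2 + 3 + c := by ring
    have e6 : c * 4 ≤ c * n p2 := Nat.mul_le_mul_left _ h4
    omega

end Pool.Agent.Helper13.NF
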